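import Mathlib
import Pool.Agent.N685.FD.DG

/-!
# The maps `x / 2`, `(5 x + b) / 2` up to `A log |x|` steps

For `b` odd and prime to `5` the map `T(x) = x / 2` (`x` even), `T(x) = (5 x + b) / 2` (`x` odd) is the
map `U(5, 2, R)` with `R = {-b}`, and `5 > 4 = 2 ^ (2 / (2 - 1))`. Heppner's theorem controls the first
`log n / log 2` steps; here the trajectories are followed during `A log |n|` steps, for every `A`.
-/

set_option autoImplicit false

namespace Pool.Agent.Results.MP_127ef0_nt.FiveXPlusBLogTime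

open Real

/-- the map: `x / 2` for even `x`, `(5 x + b) / 2` for odd `x` -/
def T (b x : ℤ) : ℤ := if x % 2 = 0 then x / 2 else (5 * x + b) / 2

/-- `η = 0.6509…` is the solution of `2 ^ η = 1 + 5 ^ (η - 1)` in `(0.6509, 0.65095)` -/
def IsEta (η : ℝ) : Prop := 0.6509 < η ∧ η < 0.65095 ∧ (2 : ℝ) ^ η = 1 + 5 ^ (η - 1)

/-- `κ = 1 / (log 2 - (1 - 2 ^ (-η)) log 5)`, about `9.19` -/
noncomputable def kappa (η : ℝ) : ℝ := 1 / (log 2 - (1 - (2 : ℝ) ^ (-η)) * log 5)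

/-- `e(A) = A (H(r) - r log 5)` with `r = (log 2 - 1 / A) / log 5` and the binary entropy function `H` -/
noncomputable def e (A : ℝ) : ℝ :=
  A * (binEntropy ((log 2 - 1 / A) / log 5) - (log 2 - 1 / A) / log 5 * log 5)

/-- the integers `n` of the sign of `s` with `|n| ≤ x` whose trajectory has a term of absolute value at
most `|n| ^ (1 - δ)` within the first `A log |n|` steps -/
def Descending (b s : ℤ) (A δ x : ℝ) : Set ℤ :=
  {n : ℤ | 0 < s * n ∧ |(n : ℝ)| ≤ x ∧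
    ∃ k : ℕ, (k : ℝ) ≤ A * log |(n : ℝ)| ∧ |(((T b)^[k] n : ℤ) : ℝ)| ≤ |(n : ℝ)| ^ (1 - δ)}

/-- the integers `n`, `1 ≤ |n| ≤ x`, whose trajectory is in `F` at some time `k ≤ A log |n|` -/
def Hitting (b : ℤ) (F : Set ℤ) (A x : ℝ) : Set ℤ :=
  {n : ℤ | n ≠ 0 ∧ |(n : ℝ)| ≤ x ∧ ∃ k : ℕ, (k : ℝ) ≤ A * log |(n : ℝ)| ∧ (T b)^[k] n ∈ F}

/-- `Λ > 1` -/
lemma lambda_gt_one : 1 < √5 / 2 := by
  have h1 : (2 : ℝ) < √5 := by
    rw [Real.lt_sqrt (by norm_num)]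
    norm_num
  linarith

lemma T_eq (b : ℤ) : T b = Pool.Agent.N685.FD.T 5 b := by
  funext x
  unfold T Pool.Agent.N685.FD.T
  norm_num

lemma adm {b : ℤ} (hb : Odd b) (hb5 : ¬ (5 : ℤ) ∣ b) : Pool.Agent.N685.FD.Adm 5 b :=
  ⟨Or.inr rfl, by
    intro h
    rw [← Int.not_even_iff_odd, even_iff_two_dvd] at hb
    exact hb h, by exact_mod_cast hb5⟩

lemma hitting_eq (b : ℤ) (F : Set ℤ) (A x : ℝ) :
    Hitting b F A x = Pool.Agent.N685.FD.DG.Ct 5 b F A x := by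
  unfold Hitting Pool.Agent.N685.FD.DG.Ct
  ext n
  simp only [Set.mem_ofPred_eq, T_eq]
  refine and_congr_right fun _ => and_congr_right fun _ => exists_congr fun k => and_comm

lemma one_le_abs {s n : ℤ} (h : 0 < s * n) : (1 : ℝ) ≤ |(n : ℝ)| := by
  have hn : n ≠ 0 := by
    rintro rfl
    simp at h
  rw [← Int.cast_abs]
  exact_mod_cast Int.one_le_abs hn

lemma log_abs_int_nonneg (m : ℤ) : 0 ≤ log |(m : ℝ)| := by
  rcases eq_or_ne m 0 with h | h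
  · simp [h]
  · apply Real.log_nonneg
    rw [← Int.cast_abs]
    exact_mod_cast Int.one_le_abs h

/-- the slope condition follows -/
lemma desc_sub {b s : ℤ} {A δ x : ℝ} (hA : 0 ≤ A) (hδ : 0 < δ) (hδ1 : δ ≤ 1) :
    Descending b s A δ x ⊆ Pool.Agent.N685.FD.UN.ES 5 b s (A / δ) δ x := by
  rintro n ⟨h1, h2, k, h3, h4⟩
  have hn := one_le_abs h1
  have hn0 : (0 : ℝ) < |(n : ℝ)| := by linarith
  have hl := Real.log_nonneg hn
  refine ⟨h1, h2, k, ?_, ?_⟩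
  · rw [← T_eq]
    exact h4
  · rw [← T_eq]
    rcases eq_or_ne ((T b)^[k] n) 0 with h5 | h5
    · rw [h5, Int.cast_zero, abs_zero, Real.log_zero, sub_zero]
      refine h3.trans (mul_le_mul_of_nonneg_right ?_ hl)
      rw [le_div_iff₀ hδ]
      nlinarith
    · have h6 : log |(((T b)^[k] n : ℤ) : ℝ)| ≤ (1 - δ) * log |(n : ℝ)| := by
        rw [← Real.log_rpow hn0]
        refine Real.log_le_log ?_ h4
        rw [abs_pos]
        exact_mod_cast h5
      calc (k : ℝ) ≤ A * log |(n : ℝ)| := h3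
        _ = A / δ * (δ * log |(n : ℝ)|) := by field_simp
        _ ≤ A / δ * (log |(n : ℝ)| - log |(((T b)^[k] n : ℤ) : ℝ)|) := by
            apply mul_le_mul_of_nonneg_left _ (by positivity)
            linarith

lemma sub_desc {b s : ℤ} {A δ x : ℝ} (hA : 0 ≤ A) :
    Pool.Agent.N685.FD.UN.ES 5 b s A δ x ⊆ Descending b s A δ x := by
  rintro n ⟨h1, h2, k, h3, h4⟩
  refine ⟨h1, h2, k, ?_, ?_⟩
  · refine h4.trans (mul_le_mul_of_nonneg_left ?_ hA)
    have := log_abs_int_nonneg ((Pool.Agent.N685.FD.T 5 b)^[k] n)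
    linarith
  · rw [T_eq]
    exact h3

/-- every cycle other than `{0}` has an element which is prime to `5` and not `0` -/
lemma cycle_elt {b : ℤ} (hb : Odd b) (hb5 : ¬ (5 : ℤ) ∣ b) {y : ℤ} (hy : y ≠ 0) {p : ℕ} (hp : 1 ≤ p)
    (h : (T b)^[p] y = y) : ∃ j : ℕ, (T b)^[j] y ≠ 0 ∧ ¬ (5 : ℤ) ∣ (T b)^[j] y := by
  have h1 : ∃ j < p, (T b)^[j] y % 2 ≠ 0 := by
    by_contra hcon
    push Not at hcon
    have h2 : ∀ j ≤ p, 2 ^ j * (T b)^[j] y = y := by
      intro j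
      induction j with
      | zero => intro _; simp
      | succ j ih =>
        intro hj
        have h3 := ih (by omega)
        have h4 := hcon j (by omega)
        rw [Function.iterate_succ_apply']
        unfold T at h4 ⊢
        rw [if_pos h4]
        obtain ⟨c, hc⟩ : (2 : ℤ) ∣ (fun x => if x % 2 = 0 then x / 2 else (5 * x + b) / 2)^[j] y :=
          Int.dvd_of_emod_eq_zero h4
        unfold T at h3
        rw [hc] at h3 ⊢
        rw [Int.mul_ediv_cancel_left _ (by norm_num : (2 : ℤ) ≠ 0)]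
        rw [← h3]
        ring
    have h3 := h2 p le_rfl
    rw [h] at h3
    have h4 : (2 ^ p - 1 : ℤ) * y = 0 := by linarith
    rcases mul_eq_zero.1 h4 with h5 | h5
    · have h6 : (2 : ℤ) ^ 1 ≤ 2 ^ p := pow_le_pow_right₀ (by norm_num) hp
      linarith
    · exact hy h5
  obtain ⟨j, _, hj⟩ := h1
  have h2 : 2 * (T b)^[j + 1] y = 5 * (T b)^[j] y + b := by
    rw [Function.iterate_succ_apply']
    obtain ⟨c, hc⟩ := hb
    show 2 * T b ((T b)^[j] y) = _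
    generalize (T b)^[j] y = z at hj ⊢
    unfold T
    rw [if_neg hj]
    omega
  have h3 : ¬ (5 : ℤ) ∣ (T b)^[j + 1] y := by
    rintro ⟨c, hc⟩
    apply hb5
    rw [hc] at h2
    exact ⟨2 * c - (T b)^[j] y, by linarith⟩
  refine ⟨j + 1, fun h4 => h3 (by rw [h4]; exact dvd_zero _), h3⟩

/-- Let `b` be odd and prime to `5`.

(1) Descents: for both signs `s`, all `A ≥ κ`, `0 < δ ≤ 1` and `ε > 0`, for large `x` the number of the
integers `n` of the sign of `s` with `|n| ≤ x` whose trajectory has a term at most `|n| ^ (1 - δ)` within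
`A log |n|` steps is `x ^ (1 - δ (1 - η))` up to a factor `x ^ (± ε)`.

(2) Hits: let `F` be a finite set of integers. For all `A` the number of the `n`, `1 ≤ |n| ≤ x`, whose
trajectory enters `F` within `A log |n|` steps is at most `x ^ (η + ε)`; if `F` has an element `m ≠ 0`
prime to `5` (for instance if `F` contains a cycle other than `{0}`), it is at least `x ^ (η - ε)` for
`A ≥ κ`, and `x ^ e(A)` up to a factor `x ^ (± ε)` for `1 / log 2 < A ≤ κ`. -/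
theorem result : (∃ η : ℝ, IsEta η) ∧ ∀ η : ℝ, IsEta η → ∀ b : ℤ, Odd b → ¬ (5 : ℤ) ∣ b →
    (∀ s : ℤ, s = 1 ∨ s = -1 → ∀ A : ℝ, kappa η ≤ A → ∀ δ : ℝ, 0 < δ → δ ≤ 1 → ∀ ε : ℝ, 0 < ε →
      ∃ X₀ : ℝ, ∀ x : ℝ, X₀ ≤ x →
        x ^ (1 - δ * (1 - η) - ε) ≤ ((Descending b s A δ x).ncard : ℝ) ∧
        ((Descending b s A δ x).ncard : ℝ) ≤ x ^ (1 - δ * (1 - η) + ε)) ∧
    (∀ F : Set ℤ, F.Finite →
      (∀ A ε : ℝ, 0 < ε → ∃ X₀ : ℝ, ∀ x : ℝ, X₀ ≤ x → ((Hitting b F A x).ncard : ℝ) ≤ x ^ (η + ε)) ∧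
      ((∃ m ∈ F, m ≠ 0 ∧ ¬ (5 : ℤ) ∣ m) →
        (∀ A : ℝ, kappa η ≤ A → ∀ ε : ℝ, 0 < ε → ∃ X₀ : ℝ, ∀ x : ℝ, X₀ ≤ x →
          x ^ (η - ε) ≤ ((Hitting b F A x).ncard : ℝ)) ∧
        (∀ A : ℝ, 1 / log 2 < A → A ≤ kappa η → ∀ ε : ℝ, 0 < ε → ∃ X₀ : ℝ, ∀ x : ℝ, X₀ ≤ x →
          x ^ (e A - ε) ≤ ((Hitting b F A x).ncard : ℝ) ∧
          ((Hitting b F A x).ncard : ℝ) ≤ x ^ (e A + ε)))) := by
  refine ⟨Pool.Agent.N685.FD.DG.exists_eta5, fun η h b hb hb5 => ?_⟩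
  have hd := adm hb hb5
  have hη : Pool.Agent.N685.FD.IsEta η := h
  have hkap : kappa η = Pool.Agent.N685.FD.Five.kap η := rfl
  have hk0 : 0 < kappa η := Pool.Agent.N685.FD.Five.kap_pos hη
  refine ⟨fun s hs A hA δ hδ hδ1 ε hε => ?_, fun F hF => ⟨fun A ε hε => ?_, ?_⟩⟩
  · have hA0 : 0 ≤ A := hk0.le.trans hA
    have hAδ : kappa η ≤ A / δ := by
      rw [le_div_iff₀ hδ]
      nlinarith
    obtain ⟨X₁, _, g1⟩ := Pool.Agent.N685.FD.DG.exc5 hd hs hη hA hδ hδ1 hε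
    obtain ⟨X₂, _, g2⟩ := Pool.Agent.N685.FD.DG.exc5 hd hs hη hAδ hδ hδ1 hε
    refine ⟨max X₁ X₂, fun x hx => ⟨?_, ?_⟩⟩
    · refine (g1 x ((le_max_left _ _).trans hx)).1.trans ?_
      exact_mod_cast Set.ncard_le_ncard (sub_desc hA0)
        (Pool.Agent.N685.FD.UN.fin_of (x := x) fun n hn => hn.2.1)
    · refine le_trans ?_ (g2 x ((le_max_right _ _).trans hx)).2
      exact_mod_cast Set.ncard_le_ncard (desc_sub hA0 hδ hδ1)
        (Pool.Agent.N685.FD.UN.fin_of (x := x) fun n hn => hn.2.1)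
  · have h1 : 1 / log 2 < max A (kappa η) :=
      lt_of_lt_of_le (Pool.Agent.N685.FD.Five.kap_gt hη) (le_max_right _ _)
    obtain ⟨X₁, _, g⟩ := Pool.Agent.N685.FD.DG.ct_upper hd hF h1
      (Pool.Agent.N685.FD.Five.tight hη h1) (by linarith [h.2.1]) hε
    refine ⟨X₁, fun x hx => ?_⟩
    rw [hitting_eq]
    refine le_trans ?_ (g x hx)
    exact_mod_cast Pool.Agent.N685.FD.DG.ct_mono (le_max_left _ _)
  · rintro ⟨m, hm, hm0, hm5⟩
    have hgood : Pool.Agent.N685.FD.DG.Good 5 F := ⟨hF, m, hm, hm0, by exact_mod_cast hm5⟩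
    refine ⟨fun A hA ε hε => ?_, fun A hA1 hA2 ε hε => ?_⟩
    · obtain ⟨X₁, _, g⟩ := Pool.Agent.N685.FD.DG.count5_high hd hgood hη hA hε
      refine ⟨X₁, fun x hx => ?_⟩
      rw [hitting_eq]
      exact (g x hx).1
    · obtain ⟨X₁, _, g⟩ := Pool.Agent.N685.FD.DG.count5_low hd hgood hη hA1 hA2 hε
      refine ⟨X₁, fun x hx => ?_⟩
      rw [hitting_eq]
      exact g x hx

end Pool.Agent.Results.MP_127ef0_nt.FiveXPlusBLogTime
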